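import Mathlib
import Pool.Agent.Lib.MP_f2f914_nt.Core

set_option autoImplicit false

namespace Pool.Agent.Results.MP_f2f914_nt.NonzeroDigits

/-- Let `x` be a real irrational quadratic integer larger than its conjugate `t - x` and let
`r ≥ 2`.  For all large `N` the number `k` of `n ∈ [1,N]` with `{x r^n} ∈ [1/r, 1)` (nonzero
base `r` digits) satisfies `8 k^2 ≥ 9 gcd(r,2) N`. -/
theorem result (x : ℝ) (hx : Irrational x) (t s : ℤ) (hq : x ^ 2 = t * x + s)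
    (hconj : (t : ℝ) - x < x) (r : ℕ) (hr : 2 ≤ r) :
    ∃ N₀ : ℕ, ∀ N : ℕ, N₀ ≤ N → 9 * (Nat.gcd r 2 * N) ≤
      8 * ((Finset.Icc 1 N).filter
        fun n : ℕ => 1 / (r : ℝ) ≤ Int.fract (x * (r : ℝ) ^ n)).card ^ 2 :=
  Pool.Agent.Lib.MP_f2f914_nt.nonzero_digits x hx t s hq hconj r hr

end Pool.Agent.Results.MP_f2f914_nt.NonzeroDigits
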